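import Pool.Agent.H15.DL3

set_option autoImplicit false

namespace Pool.Agent.Results.MP_0abb29_gt.Counterexample

open Set Topology Filter

/-- The closure of every discrete subset is Lindelof. -/
def DiscretelyLindelof (X : Type) [TopologicalSpace X] : Prop :=
  ∀ D : Set X, DiscreteTopology D → IsLindelof (closure D)

/-- a discrete copy of a type -/
def Disc (α : Type) : Type := α

instance (α : Type) : TopologicalSpace (Disc α) := ⊥

instance (α : Type) : DiscreteTopology (Disc α) := ⟨rfl⟩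

theorem prod_not {X : Type} [TopologicalSpace X] (hX : ¬ IsLindelof (univ : Set X)) :
    ¬ DiscretelyLindelof (X × OnePoint (Disc (X × ℕ))) := by
  intro h
  let e : X × ℕ → X × OnePoint (Disc (X × ℕ)) := fun p => (p.1, OnePoint.some p)
  have h1 : DiscreteTopology (range e) := by
    refine discreteTopology_subtype_iff'.2 ?_
    rintro _ ⟨p, rfl⟩
    refine ⟨Prod.snd ⁻¹' (OnePoint.some '' {p}), (OnePoint.isOpenEmbedding_coe.isOpenMap _
      (isOpen_discrete _)).preimage continuous_snd, Subset.antisymm ?_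
      (singleton_subset_iff.2 ⟨⟨p, rfl, rfl⟩, p, rfl⟩)⟩
    rintro _ ⟨⟨q, rfl, hq⟩, r, rfl⟩
    have : q = r := OnePoint.coe_injective hq
    rw [this]
    rfl
  refine hX (((h _ h1).image continuous_fst).of_isClosed_subset isClosed_univ fun x _ => ?_)
  exact ⟨e (x, 0), subset_closure ⟨_, rfl⟩, rfl⟩

theorem result : ∃ (X K : Type) (_ : TopologicalSpace X) (_ : TopologicalSpace K),
    T2Space X ∧ DiscretelyLindelof X ∧ CompactSpace K ∧ T2Space K ∧
    ¬ DiscretelyLindelof (X × K) := by
  refine ⟨H15.DL.XX, OnePoint (Disc (H15.DL.XX × ℕ)), inferInstance, inferInstance, inferInstance,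
    fun D hD => H15.DL.disc_lindelof hD, inferInstance, inferInstance, prod_not fun h => ?_⟩
  obtain ⟨𝒰, h1, h2, h3⟩ := H15.DL.not_weakly
  obtain ⟨r, a, b⟩ := h.elim_countable_subcover (fun U : 𝒰 => U.1) (fun U => h1 U U.2)
    (by rw [← sUnion_eq_iUnion, h2])
  refine h3 (Subtype.val '' r) (by rintro _ ⟨U, -, rfl⟩; exact U.2) (a.image _) fun x => ?_
  obtain ⟨U, hU, hx⟩ := mem_iUnion₂.1 (b (mem_univ x))
  exact subset_closure ⟨U, ⟨U, hU, rfl⟩, hx⟩

end Pool.Agent.Results.MP_0abb29_gt.Counterexample
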